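import Mathlib
import Pool.Agent.helper73.SHL.Spec

/-!
# Project shl (MP_a2a22c_al), row STP
-/

set_option autoImplicit false

namespace Pool.Agent.SHL

open Matrix Module Pool.Agent.PR Polynomial

theorem STP_pow {D V₁ V₂ : Type} [Ring D] [AddCommGroup V₁] [Module D V₁] [AddCommGroup V₂]
    [Module D V₂] (T : V₁ →ₗ[D] V₂) (A₁ : Module.End D V₁) (A₂ : Module.End D V₂)
    (h : ∀ v, T (A₁ v) = A₂ (T v)) (n : ℕ) : ∀ v : V₁, T ((A₁ ^ n) v) = (A₂ ^ n) (T v) := by
  induction n with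
  | zero => intro v; rfl
  | succ n ih =>
    intro v
    rw [pow_succ, pow_succ, Module.End.mul_apply, Module.End.mul_apply, ih, h]

theorem STP_aeval {D V₁ V₂ : Type} [Ring D] [AddCommGroup V₁] [Module D V₁] [AddCommGroup V₂]
    [Module D V₂] (T : V₁ →ₗ[D] V₂) (A₁ : Module.End D V₁) (A₂ : Module.End D V₂)
    (h : ∀ v, T (A₁ v) = A₂ (T v)) (p : ℤ[X]) :
    ∀ v : V₁, T ((aeval A₁ p) v) = (aeval A₂ p) (T v) := by
  induction p using Polynomial.induction_on' with
  | add p q hp hq =>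
    intro v
    rw [map_add, map_add, LinearMap.add_apply, LinearMap.add_apply, map_add, hp, hq]
  | monomial n c =>
    intro v
    rw [Polynomial.aeval_monomial, Polynomial.aeval_monomial, eq_intCast, eq_intCast,
      Module.End.mul_apply, Module.End.mul_apply, Module.End.intCast_apply,
      Module.End.intCast_apply, map_zsmul, STP_pow T A₁ A₂ h n]

theorem STP_int_quot {D V₁ V₂ : Type} [Ring D] [AddCommGroup V₁] [Module D V₁] [AddCommGroup V₂]
    [Module D V₂] (T : V₁ →ₗ[D] V₂) (hT : Function.Surjective T) (A₁ : Module.End D V₁)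
    (A₂ : Module.End D V₂) (h : ∀ v, T (A₁ v) = A₂ (T v)) (hA : IsIntegral ℤ A₁) :
    IsIntegral ℤ A₂ := by
  obtain ⟨p, hp, hp0⟩ := hA
  refine ⟨p, hp, ?_⟩
  rw [← Polynomial.aeval_def] at hp0 ⊢
  ext v
  obtain ⟨u, rfl⟩ := hT v
  rw [← STP_aeval T A₁ A₂ h p u, hp0, LinearMap.zero_apply, LinearMap.zero_apply, map_zero]

theorem STP_int_sub {D V₁ V₂ : Type} [Ring D] [AddCommGroup V₁] [Module D V₁] [AddCommGroup V₂]
    [Module D V₂] (T : V₁ →ₗ[D] V₂) (hT : Function.Injective T) (A₁ : Module.End D V₁)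
    (A₂ : Module.End D V₂) (h : ∀ v, T (A₁ v) = A₂ (T v)) (hA : IsIntegral ℤ A₂) :
    IsIntegral ℤ A₁ := by
  obtain ⟨p, hp, hp0⟩ := hA
  refine ⟨p, hp, ?_⟩
  rw [← Polynomial.aeval_def] at hp0 ⊢
  ext v
  apply hT
  rw [STP_aeval T A₁ A₂ h p v, hp0, LinearMap.zero_apply, LinearMap.zero_apply, map_zero]

theorem STP_lam {D V Q : Type} [DivisionRing D] [AddCommGroup V] [Module D V] [Group Q]
    (ρ : Q →* Module.End D V) (G₁ : Subgroup Q) (L : Submodule D V)
    (hL : ∀ g ∈ G₁, ∀ w ∈ L, ρ g w ∈ L) :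
    ∃ lam : G₁ →* Module.End D L, ∀ (g : G₁) (w : L), ((lam g w : L) : V) = ρ g w := by
  refine ⟨{ toFun := fun g => (ρ g).restrict (hL g g.2), map_one' := ?_, map_mul' := ?_ },
    fun g w => rfl⟩
  · ext w
    show ρ ((1 : G₁) : Q) (w : V) = w
    rw [Subgroup.coe_one, map_one]
    rfl
  · intro g h
    ext w
    show ρ ((g * h : G₁) : Q) (w : V) = ρ g (ρ h w)
    rw [Subgroup.coe_mul, map_mul]
    rfl

theorem STP_mu {D V Q : Type} [DivisionRing D] [AddCommGroup V] [Module D V] [Group Q]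
    (ρ : Q →* Module.End D V) (G₁ : Subgroup Q) (L : Submodule D V)
    (hL : ∀ g ∈ G₁, ∀ w ∈ L, ρ g w ∈ L) :
    ∃ mu : G₁ →* Module.End D (V ⧸ L), ∀ (g : G₁) (v : V), mu g (L.mkQ v) = L.mkQ (ρ g v) := by
  refine ⟨{ toFun := fun g => L.mapQ L (ρ g) (hL g g.2), map_one' := ?_, map_mul' := ?_ },
    fun g w => rfl⟩
  · ext v
    show L.mkQ (ρ ((1 : G₁) : Q) v) = L.mkQ v
    rw [Subgroup.coe_one, map_one]
    rfl
  · intro g h
    ext v
    show L.mkQ (ρ ((g * h : G₁) : Q) v) = L.mkQ (ρ g (ρ h v))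
    rw [Subgroup.coe_mul, map_mul]
    rfl

/-- passing from the image of a subgroup to the range of a homomorphism as a group -/
theorem STP_range (hHA : HA_stmt) {G G' : Type} [Group G] [Group G'] (φ : G →* G') (N : ℕ)
    (H : Subgroup G) (h : Hi N (H.map φ)) : Hi N (⊤ : Subgroup φ.range) := by
  have h1 : Hi N φ.range := (hHA G').1 N (H.map φ) φ.range
    (by rw [MonoidHom.range_eq_map]; exact Subgroup.map_mono le_top) h
  have h2 := (hHA G').2.2.2.2.2 φ.range φ.range.subtype (Subgroup.subtype_injective _) N φ.range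
    (le_of_eq (Subgroup.range_subtype _).symm) h1
  have h3 : φ.range.comap φ.range.subtype = ⊤ := by
    rw [eq_top_iff]
    intro x _
    exact x.2
  rw [h3] at h2
  exact h2

theorem STP (hHA : HA_stmt) (hHB : HB_stmt) (hHD : HD_stmt) (hTOR : TOR_stmt) (hSTR : STR_stmt) :
    STP_stmt := by
  intro D _ _ _ d hcen hd V _ _ _ _ _ _ Q _ hQ ρ hρ hint N hN
  obtain ⟨G₁, L, hG₁, hL0, hL, hcomm, hmin⟩ := hSTR D V Q hQ ρ
  obtain ⟨lam, hlam⟩ := STP_lam ρ G₁ L hL
  obtain ⟨mu, hmu⟩ := STP_mu ρ G₁ L hL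
  -- `Hi N` for `G₁`
  have h1 : Hi N G₁ := by
    have h := (hHA Q).2.2.1 N ⊤ G₁
      (by rw [Subgroup.relIndex_top_right]; exact hG₁.index_ne_zero) hN
    rwa [inf_top_eq] at h
  have h2 : Hi N (⊤ : Subgroup G₁) := by
    have h := (hHA Q).2.2.2.2.2 G₁ G₁.subtype (Subgroup.subtype_injective _) N G₁
      (le_of_eq (Subgroup.range_subtype _).symm) h1
    have h3 : G₁.comap G₁.subtype = ⊤ := by
      rw [eq_top_iff]
      intro x _
      exact x.2
    rwa [h3] at h
  obtain ⟨x, b, hxb, hx, hb⟩ := hHB G₁ (Module.End D (V ⧸ L))ˣ mu.toHomUnits N ⊤ h2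
  obtain ⟨a, c, hac, ha, hc⟩ := hHB G₁ (Module.End D L)ˣ lam.toHomUnits x _ hx
  have hLnt : Nontrivial L := Submodule.nontrivial_iff_ne_bot.2 hL0
  haveI : Module.Finite D L := inferInstance
  refine ⟨G₁, L, a, b, c, hG₁, hL0, hL, by omega, ?_, ?_, ?_⟩
  · -- `c`
    have hc' := STP_range hHA lam.toHomUnits c _ hc
    refine hTOR D d hcen hd L lam.toHomUnits.range
      ((Units.coeHom (Module.End D L)).comp lam.toHomUnits.range.subtype) ?_ ?_ ?_ ?_ c hc'
    · intro u v huv
      apply Subtype.ext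
      exact Units.ext huv
    · rintro ⟨_, g, rfl⟩ ⟨_, h, rfl⟩
      show lam g * lam h = lam h * lam g
      rw [← map_mul, ← map_mul]
      ext w
      rw [hlam, hlam]
      exact hcomm g g.2 h h.2 w w.2
    · intro W hW
      have hW' : ∀ g ∈ G₁, ∀ w ∈ W.map L.subtype, ρ g w ∈ W.map L.subtype := by
        rintro g hg _ ⟨w, hw, rfl⟩
        refine ⟨lam ⟨g, hg⟩ w, hW ⟨lam.toHomUnits ⟨g, hg⟩, ⟨g, hg⟩, rfl⟩ w hw, ?_⟩
        exact hlam ⟨g, hg⟩ w
      rcases hmin (W.map L.subtype) (Submodule.map_subtype_le L W) hW' with h | h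
      · left
        rw [eq_bot_iff]
        intro w hw
        have hw2 : (w : V) ∈ W.map L.subtype := ⟨w, hw, rfl⟩
        rw [h, Submodule.mem_bot] at hw2
        exact (Submodule.mem_bot D).2 (Subtype.ext hw2)
      · right
        rw [eq_top_iff]
        intro w _
        have hw : (w : V) ∈ W.map L.subtype := by rw [h]; exact w.2
        obtain ⟨w', hw', hww'⟩ := hw
        have : w' = w := Subtype.ext hww'
        rwa [← this]
    · rintro ⟨_, g, rfl⟩
      exact STP_int_sub L.subtype (Submodule.subtype_injective L) (lam g) (ρ g)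
        (fun v => hlam g v) (hint g)
  · -- `b`
    have hb' := STP_range hHA mu.toHomUnits b _ hb
    refine ⟨mu.toHomUnits.range, inferInstance,
      (Units.coeHom (Module.End D (V ⧸ L))).comp mu.toHomUnits.range.subtype, ?_, ?_, ?_, hb'⟩
    · haveI : Group.IsSolvable G₁ := inferInstance
      exact Group.isSolvable_of_surjective (MonoidHom.rangeRestrict_surjective mu.toHomUnits)
    · intro u v huv
      apply Subtype.ext
      exact Units.ext huv
    · rintro ⟨_, g, rfl⟩
      exact STP_int_quot L.mkQ (Submodule.mkQ_surjective L) (ρ g) (mu g)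
        (fun v => (hmu g v).symm) (hint g)
  · -- `a`
    haveI : Module.Finite ℚ V := Module.Finite.trans D V
    haveI : FiniteDimensional ℚ (Module.End D V) := by
      let R : Module.End D V →ₗ[ℚ] Module.End ℚ V :=
        { toFun := fun f => f.restrictScalars ℚ
          map_add' := fun f g => rfl
          map_smul' := fun c f => rfl }
      refine Module.Finite.of_injective R ?_
      intro f g hfg
      ext v
      exact LinearMap.congr_fun hfg v
    have hkill : ∀ y ∈ ((⊤ : Subgroup G₁) ⊓ mu.toHomUnits.ker) ⊓ lam.toHomUnits.ker,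
        (∀ w ∈ L, ρ y w = w) ∧ ∀ v, ρ y v - v ∈ L := by
      intro y hy
      have hy1 : mu.toHomUnits y = 1 := MonoidHom.mem_ker.1 hy.1.2
      have hy2 : lam.toHomUnits y = 1 := MonoidHom.mem_ker.1 hy.2
      have hy3 : mu y = 1 := congrArg Units.val hy1
      have hy4 : lam y = 1 := congrArg Units.val hy2
      refine ⟨fun w hw => ?_, fun v => ?_⟩
      · have h5 := hlam y ⟨w, hw⟩
        rw [hy4] at h5
        exact h5.symm
      · have h5 := hmu y v
        rw [hy3] at h5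
        rw [← Submodule.Quotient.eq]
        exact h5.symm
    have key := hHD G₁ (Module.End D V)
      (((⊤ : Subgroup G₁) ⊓ mu.toHomUnits.ker) ⊓ lam.toHomUnits.ker) (fun g => ρ g - 1) ?_ ?_ a ha
    · refine key.trans ?_
      apply Submodule.finrank_mono
      apply Submodule.span_mono
      rintro _ ⟨y, hy, rfl⟩
      exact ⟨y, y.2, (hkill y hy).1, (hkill y hy).2, rfl⟩
    · intro y hy z hz
      show ρ ((y * z : G₁) : Q) - 1 = (ρ y - 1) + (ρ z - 1)
      ext v
      rw [Subgroup.coe_mul, map_mul]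
      show ρ y (ρ z v) - v = (ρ y v - v) + (ρ z v - v)
      have h5 : ρ y (ρ z v - v) = ρ z v - v := (hkill y hy).1 _ ((hkill z hz).2 v)
      rw [map_sub] at h5
      have h6 : ρ y (ρ z v) = (ρ z v - v) + ρ y v := by rw [← h5]; abel
      rw [h6]
      abel
    · intro y _ hy0
      refine ⟨1, one_pos, ?_⟩
      rw [pow_one]
      have h5 : ρ (y : Q) = 1 := sub_eq_zero.1 hy0
      have h6 : (y : Q) = 1 := hρ (h5.trans (map_one ρ).symm)
      exact Subtype.ext h6

end Pool.Agent.SHL
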